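import Pool.Agent.H347.MeanPR

/-!
The pattern a, b, a(b+1) is partition regular (not handed in: the four-element pattern x, y, xy, x(y+1) is
listed as known to be partition regular in the files of MP_3c6abb_co and MP_78d0db_co).
-/

set_option autoImplicit false
namespace Pool.Agent.H347.ABSucc

open Pool.Agent.H347.MeanPR

/-- For every coloring of the natural numbers with finitely many colors, there exist positive integers a and b such that a, b and a(b+1) all receive the same color. -/
theorem a_b_a_succ_b :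
    ∀ (r : ℕ) (c : ℕ → Fin r),
      ∃ a b : ℕ, 0 < a ∧ 0 < b ∧ c a = c b ∧ c a = c (a * (b + 1)) := by
  intro r c
  by_contra hcon
  push Not at hcon
  -- `ind k` is the indicator function of the colour `k`
  set ind : Fin r → ℕ → ℝ := fun k x => if c x = k then 1 else 0 with hind
  have ind0 : ∀ k x, 0 ≤ ind k x := by
    intro k x
    simp only [hind]
    split_ifs <;> norm_num
  have ind1 : ∀ k x, ind k x ≤ 1 := by
    intro k x
    simp only [hind]
    split_ifs <;> norm_num
  have indB : ∀ k, Bdd (ind k) := fun k => ⟨1, fun x => by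
    rw [abs_of_nonneg (ind0 k x)]; exact ind1 k x⟩
  -- the colours which are positive for some mean
  obtain ⟨N, hN⟩ : ∃ N : ℕ, ∀ k : Fin r, (∃ m, IsMean m ∧ 0 < m (ind k)) →
      ∃ m, IsMean m ∧ 1 < N * m (ind k) := by
    have h1 : ∀ k : Fin r, ∃ n : ℕ, (∃ m, IsMean m ∧ 0 < m (ind k)) →
        ∃ m, IsMean m ∧ 1 < n * m (ind k) := by
      intro k
      by_cases h : ∃ m, IsMean m ∧ 0 < m (ind k)
      · obtain ⟨m, hm, hp⟩ := h
        obtain ⟨n, hn⟩ := exists_nat_gt (1 / m (ind k))
        refine ⟨n, fun _ => ⟨m, hm, ?_⟩⟩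
        rwa [div_lt_iff₀ hp] at hn
      · exact ⟨0, fun h' => absurd h' h⟩
    choose n hn using h1
    refine ⟨∑ k, n k, fun k hk => ?_⟩
    obtain ⟨m, hm, h2⟩ := hn k hk
    refine ⟨m, hm, h2.trans_le (mul_le_mul_of_nonneg_right ?_
      (hm.nonneg (indB k) fun x _ => ind0 k x))⟩
    exact_mod_cast Finset.single_le_sum (f := n) (fun i _ => Nat.zero_le _) (Finset.mem_univ k)
  -- the union of the other colours
  classical
  set z : ℕ → ℝ := fun x => if (∃ m, IsMean m ∧ 0 < m (ind (c x))) then 0 else 1 with hz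
  have z0 : ∀ x, 0 ≤ z x := by
    intro x
    simp only [hz]
    split_ifs <;> norm_num
  have zB : Bdd z := ⟨1, fun x => by
    rw [abs_of_nonneg (z0 x)]
    simp only [hz]
    split_ifs <;> norm_num⟩
  have znull : ∀ m', IsMean m' → m' z = 0 := by
    intro m' hm'
    set w : Fin r → ℝ := fun k => if (∃ m, IsMean m ∧ 0 < m (ind k)) then 0 else 1 with hw
    have h1 : z = fun x => ∑ k ∈ (Finset.univ.filter fun k : Fin r =>
        ¬ ∃ m, IsMean m ∧ 0 < m (ind k)), ind k x := by
      funext x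
      rw [Finset.sum_filter]
      have h2 : ∀ k : Fin r, (if ¬ (∃ m, IsMean m ∧ 0 < m (ind k)) then ind k x else 0) =
          if k = c x then z x else 0 := by
        intro k
        by_cases hk : k = c x
        · subst hk
          simp only [hz, hind, if_true]
          split_ifs <;> simp_all
        · have : ¬ (c x = k) := fun h => hk h.symm
          simp only [hind, this, hk, if_false, ite_self]
      rw [Finset.sum_congr rfl fun k _ => h2 k]
      simp
    rw [h1, hm'.sum _ _ fun k _ => indB k]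
    refine Finset.sum_eq_zero fun k hk => ?_
    rw [Finset.mem_filter] at hk
    refine le_antisymm ?_ (hm'.nonneg (indB k) fun x _ => ind0 k x)
    by_contra h
    push Not at h
    exact hk.2 ⟨m', hm', h⟩
  -- a long chain avoiding `z`
  obtain ⟨R, hR⟩ := ramsey r (N + 2)
  obtain ⟨s, -, hs1, hs2, -, -⟩ := exists_chain isMean_mn zB z0 znull R 0
  obtain ⟨k, J, hJR, hJc, hJ⟩ := hR fun i j => c (s j / s i - 1)
  have hJle : ∀ i ∈ J, i ≤ R := fun i hi => (Finset.mem_range.mp (hJR hi)).le
  have hpair : ∀ i ∈ J, ∀ j ∈ J, i < j → ∃ b, 0 < b ∧ s j = s i * (b + 1) ∧ c b = k ∧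
      ∃ m, IsMean m ∧ 0 < m (ind k) := by
    intro i hi j hj hij
    obtain ⟨b, hb0, hb1, hb2⟩ := hs2 i j hij (hJle j hj)
    have h1 : c b = k := by
      have := hJ i hi j hj hij
      rw [hb1, Nat.mul_div_cancel_left _ (hs1 i (hJle i hi)), Nat.add_sub_cancel] at this
      exact this
    refine ⟨b, hb0, hb1, h1, ?_⟩
    by_contra h
    rw [← h1] at h
    simp only [hz, h, if_false, lt_irrefl] at hb2
  -- the colour `k` is positive for some mean
  obtain ⟨i₀, hi₀, j₀, hj₀, hne⟩ := Finset.one_lt_card.mp (show 1 < J.card by omega)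
  have hpos : ∃ m, IsMean m ∧ 0 < m (ind k) := by
    rcases lt_or_gt_of_ne hne with h | h
    · obtain ⟨b, -, -, -, h'⟩ := hpair i₀ hi₀ j₀ hj₀ h
      exact h'
    · obtain ⟨b, -, -, -, h'⟩ := hpair j₀ hj₀ i₀ hi₀ h
      exact h'
  obtain ⟨m, hm, hmk⟩ := hN k hpos
  have hB : ∀ i ∈ J, Bdd (fun x => ind k (s i * x)) := fun i _ => (indB k).comp fun x => s i * x
  have hmean : 1 < m (fun x => ∑ i ∈ J, ind k (s i * x)) := by
    rw [hm.sum _ _ hB]
    have h1 : ∀ i ∈ J, m (fun x => ind k (s i * x)) = m (ind k) := fun i hi =>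
      hm.inv (ind k) (s i) (indB k) (hs1 i (hJle i hi))
    rw [Finset.sum_congr rfl h1, Finset.sum_const, nsmul_eq_mul]
    refine hmk.trans_le (mul_le_mul_of_nonneg_right ?_ (hm.nonneg (indB k) fun x _ => ind0 k x))
    exact_mod_cast (by omega : N ≤ J.card)
  obtain ⟨x, hx, hgt⟩ := hm.exists_gt (Bdd.sum _ hB) hmean
  -- two elements of the clique
  have hcard : 1 < (J.filter fun i => c (s i * x) = k).card := by
    have h1 : ∑ i ∈ J, ind k (s i * x) = ((J.filter fun i => c (s i * x) = k).card : ℝ) := by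
      rw [Finset.card_filter]
      push_cast
      rfl
    rw [h1] at hgt
    exact_mod_cast hgt
  have hfin : ∀ i ∈ J, ∀ j ∈ J, i < j → c (s i * x) = k → c (s j * x) = k → False := by
    intro i hi j hj hij h1 h2
    obtain ⟨b, hb0, hb1, hb2, -⟩ := hpair i hi j hj hij
    refine hcon (s i * x) b (Nat.mul_pos (hs1 i (hJle i hi)) hx) hb0 (by rw [h1, hb2]) ?_
    rw [h1, ← h2, hb1]
    congr 1
    ring
  obtain ⟨i, hi, j, hj, hij⟩ := Finset.one_lt_card.mp hcard
  rw [Finset.mem_filter] at hi hj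
  rcases lt_or_gt_of_ne hij with h | h
  · exact hfin i hi.1 j hj.1 h hi.2 hj.2
  · exact hfin j hj.1 i hi.1 h hj.2 hi.2

end Pool.Agent.H347.ABSucc
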