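import Mathlib

/-!
# Multiplicatively invariant means on the positive integers

A multiplicatively invariant mean is a positive normalised linear functional on the bounded functions of a
positive integer which is invariant under all dilations `f ↦ f (s ·)`.  They exist
(`exists_isMean`), and the additive convolution of two of them is again one (`IsMean.conv`).
For such a mean the maps `y ↦ x + y` and `y ↦ x + (x + 1) y = (x + 1) (y + 1) - 1` look alike.
Hence a set which is null for all of them can be avoided by all the differences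
`s j / s i - 1` of a long chain of multiples (`exists_chain`).
-/

set_option autoImplicit false

namespace Pool.Agent.H347.MeanPR

open Filter Topology Finset

/-- bounded functions -/
def Bdd (f : ℕ → ℝ) : Prop := ∃ C : ℝ, ∀ x, |f x| ≤ C

lemma Bdd.add {f g : ℕ → ℝ} (hf : Bdd f) (hg : Bdd g) : Bdd (fun x => f x + g x) := by
  obtain ⟨C, hC⟩ := hf
  obtain ⟨D, hD⟩ := hg
  exact ⟨C + D, fun x => (abs_add_le _ _).trans (add_le_add (hC x) (hD x))⟩

lemma Bdd.const (c : ℝ) : Bdd (fun _ => c) := ⟨|c|, fun _ => le_rfl⟩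

lemma Bdd.comp {f : ℕ → ℝ} (hf : Bdd f) (g : ℕ → ℕ) : Bdd (fun x => f (g x)) := by
  obtain ⟨C, hC⟩ := hf
  exact ⟨C, fun x => hC _⟩

lemma Bdd.sum {ι : Type} (s : Finset ι) {f : ι → ℕ → ℝ} (hf : ∀ i ∈ s, Bdd (f i)) :
    Bdd (fun x => ∑ i ∈ s, f i x) := by
  classical
  induction s using Finset.induction_on with
  | empty => simpa using Bdd.const 0
  | insert i s hi ih =>
    simp only [Finset.sum_insert hi]
    exact (hf i (Finset.mem_insert_self _ _)).add
      (ih fun j hj => hf j (Finset.mem_insert_of_mem hj))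

/-- a mean on the positive integers, invariant under dilations -/
structure IsMean (m : (ℕ → ℝ) → ℝ) : Prop where
  add : ∀ f g, Bdd f → Bdd g → m (fun x => f x + g x) = m f + m g
  const : ∀ c : ℝ, m (fun _ => c) = c
  mono : ∀ f g, Bdd f → Bdd g → (∀ x, 0 < x → f x ≤ g x) → m f ≤ m g
  inv : ∀ f s, Bdd f → 0 < s → m (fun x => f (s * x)) = m f

lemma IsMean.congr {m : (ℕ → ℝ) → ℝ} (hm : IsMean m) {f g : ℕ → ℝ} (hf : Bdd f) (hg : Bdd g)
    (h : ∀ x, 0 < x → f x = g x) : m f = m g :=
  le_antisymm (hm.mono f g hf hg fun x hx => (h x hx).le)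
    (hm.mono g f hg hf fun x hx => (h x hx).ge)

lemma IsMean.sum {m : (ℕ → ℝ) → ℝ} (hm : IsMean m) {ι : Type} (s : Finset ι) (f : ι → ℕ → ℝ)
    (hf : ∀ i ∈ s, Bdd (f i)) : m (fun x => ∑ i ∈ s, f i x) = ∑ i ∈ s, m (f i) := by
  classical
  induction s using Finset.induction_on with
  | empty => simpa using hm.const 0
  | insert i s hi ih =>
    simp only [Finset.sum_insert hi]
    rw [hm.add _ _ (hf i (Finset.mem_insert_self _ _))
      (Bdd.sum s fun j hj => hf j (Finset.mem_insert_of_mem hj)),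
      ih fun j hj => hf j (Finset.mem_insert_of_mem hj)]

lemma IsMean.abs_bound {m : (ℕ → ℝ) → ℝ} (hm : IsMean m) {f : ℕ → ℝ} {C : ℝ}
    (hC : ∀ x, |f x| ≤ C) : |m f| ≤ C := by
  have hf : Bdd f := ⟨C, hC⟩
  rw [abs_le]
  constructor
  · have := hm.mono (fun _ => -C) f (Bdd.const _) hf fun x _ => (abs_le.mp (hC x)).1
    rwa [hm.const] at this
  · have := hm.mono f (fun _ => C) hf (Bdd.const _) fun x _ => (abs_le.mp (hC x)).2
    rwa [hm.const] at this

lemma IsMean.nonneg {m : (ℕ → ℝ) → ℝ} (hm : IsMean m) {f : ℕ → ℝ} (hf : Bdd f)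
    (h : ∀ x, 0 < x → 0 ≤ f x) : 0 ≤ m f := by
  have := hm.mono (fun _ => 0) f (Bdd.const _) hf h
  rwa [hm.const] at this

/-- if the mean is smaller than `c` some value is -/
lemma IsMean.exists_lt {m : (ℕ → ℝ) → ℝ} (hm : IsMean m) {f : ℕ → ℝ} (hf : Bdd f) {c : ℝ}
    (h : m f < c) : ∃ x, 0 < x ∧ f x < c := by
  by_contra hcon
  push Not at hcon
  have := hm.mono (fun _ => c) f (Bdd.const _) hf hcon
  rw [hm.const] at this
  linarith

/-- if the mean is larger than `c` some value is -/
lemma IsMean.exists_gt {m : (ℕ → ℝ) → ℝ} (hm : IsMean m) {f : ℕ → ℝ} (hf : Bdd f) {c : ℝ}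
    (h : c < m f) : ∃ x, 0 < x ∧ c < f x := by
  by_contra hcon
  push Not at hcon
  have := hm.mono f (fun _ => c) hf (Bdd.const _) hcon
  rw [hm.const] at this
  linarith

/-- convolution by `m` -/
lemma IsMean.bdd_conv {m : (ℕ → ℝ) → ℝ} (hm : IsMean m) {f : ℕ → ℝ} (hf : Bdd f) :
    Bdd (fun x => m (fun y => f (x + y))) := by
  obtain ⟨C, hC⟩ := hf
  exact ⟨C, fun x => hm.abs_bound fun y => hC _⟩

/-- the additive convolution of two multiplicatively invariant means is one -/
lemma IsMean.conv {m m' : (ℕ → ℝ) → ℝ} (hm : IsMean m) (hm' : IsMean m') :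
    IsMean (fun f => m (fun x => m' (fun y => f (x + y)))) := by
  refine ⟨?_, ?_, ?_, ?_⟩
  · intro f g hf hg
    have : (fun x => m' (fun y => f (x + y) + g (x + y))) =
        fun x => m' (fun y => f (x + y)) + m' (fun y => g (x + y)) := by
      funext x
      exact hm'.add _ _ (hf.comp fun y => x + y) (hg.comp fun y => x + y)
    simp only [this]
    exact hm.add _ _ (hm'.bdd_conv hf) (hm'.bdd_conv hg)
  · intro c
    simp only [hm'.const, hm.const]
  · intro f g hf hg h
    refine hm.mono _ _ (hm'.bdd_conv hf) (hm'.bdd_conv hg) fun x _ => ?_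
    exact hm'.mono _ _ (hf.comp fun y => x + y) (hg.comp fun y => x + y)
      fun y hy => h _ (by omega)
  · intro f s hf hs
    have h1 : ∀ x, m' (fun y => f (s * (x + y))) = m' (fun y => f (s * x + y)) := by
      intro x
      have := hm'.inv (fun y => f (s * x + y)) s (hf.comp fun y => s * x + y) hs
      simp only [← mul_add] at this
      exact this
    simp only [h1]
    exact hm.inv (fun x => m' (fun y => f (x + y))) s (hm'.bdd_conv hf) hs

/-! ### existence -/

/-- averages over the products of powers of `1, …, k` with exponents `< M` -/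
noncomputable def Av (M : ℕ) : ℕ → (ℕ → ℝ) → ℕ → ℝ
  | 0, f => f
  | k + 1, f => fun x => (∑ e ∈ range M, Av M k f ((k + 1) ^ e * x)) / M

lemma Av_add (M k : ℕ) (f g : ℕ → ℝ) (x : ℕ) :
    Av M k (fun x => f x + g x) x = Av M k f x + Av M k g x := by
  induction k generalizing x with
  | zero => rfl
  | succ k ih =>
    simp only [Av, ih, Finset.sum_add_distrib, add_div]

lemma Av_const {M : ℕ} (hM : 0 < M) (k : ℕ) (c : ℝ) (x : ℕ) : Av M k (fun _ => c) x = c := by
  induction k generalizing x with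
  | zero => rfl
  | succ k ih =>
    have : (M : ℝ) ≠ 0 := by exact_mod_cast hM.ne'
    simp only [Av, ih, Finset.sum_const, Finset.card_range, nsmul_eq_mul]
    field_simp

lemma Av_mono (M k : ℕ) {f g : ℕ → ℝ} (h : ∀ x, 0 < x → f x ≤ g x) (x : ℕ) (hx : 0 < x) :
    Av M k f x ≤ Av M k g x := by
  induction k generalizing x with
  | zero => exact h x hx
  | succ k ih =>
    simp only [Av]
    refine div_le_div_of_nonneg_right (Finset.sum_le_sum fun e _ => ih _ ?_) (Nat.cast_nonneg M)
    positivity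

lemma Av_abs {M : ℕ} (hM : 0 < M) (k : ℕ) {f : ℕ → ℝ} {C : ℝ} (h : ∀ x, |f x| ≤ C) (x : ℕ) :
    |Av M k f x| ≤ C := by
  induction k generalizing x with
  | zero => exact h x
  | succ k ih =>
    have hM' : (0 : ℝ) < M := by exact_mod_cast hM
    simp only [Av]
    rw [abs_div, abs_of_pos hM', div_le_iff₀ hM']
    refine (Finset.abs_sum_le_sum_abs _ _).trans ((Finset.sum_le_sum fun e _ => ih _).trans ?_)
    simp [mul_comm]

lemma Av_dil (M k : ℕ) (f : ℕ → ℝ) (s x : ℕ) :
    Av M k (fun x => f (s * x)) x = Av M k f (s * x) := by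
  induction k generalizing x with
  | zero => rfl
  | succ k ih =>
    simp only [Av, ih]
    congr 1
    refine Finset.sum_congr rfl fun e _ => ?_
    congr 1
    ring

lemma Av_inv {M : ℕ} (hM : 0 < M) (k : ℕ) {f : ℕ → ℝ} {C : ℝ} (h : ∀ x, |f x| ≤ C) (i : ℕ)
    (hi : i < k) (x : ℕ) : |Av M k f ((i + 1) * x) - Av M k f x| ≤ 2 * C / M := by
  have hM' : (0 : ℝ) < M := by exact_mod_cast hM
  induction k generalizing x with
  | zero => omega
  | succ k ih =>
    simp only [Av]
    rw [← sub_div, abs_div, abs_of_pos hM', ← Finset.sum_sub_distrib]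
    rcases Nat.lt_succ_iff_lt_or_eq.mp hi with h1 | h1
    · rw [div_le_div_iff_of_pos_right hM']
      have h2 : ∀ e ∈ range M, |Av M k f ((k + 1) ^ e * ((i + 1) * x)) -
          Av M k f ((k + 1) ^ e * x)| ≤ 2 * C / M := by
        intro e _
        have := ih h1 ((k + 1) ^ e * x)
        rwa [show (i + 1) * ((k + 1) ^ e * x) = (k + 1) ^ e * ((i + 1) * x) by ring] at this
      refine (Finset.abs_sum_le_sum_abs _ _).trans ((Finset.sum_le_sum h2).trans ?_)
      simp only [Finset.sum_const, Finset.card_range, nsmul_eq_mul]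
      rw [mul_div_cancel₀ _ hM'.ne']
    · subst h1
      rw [div_le_div_iff_of_pos_right hM']
      have h2 : ∀ e, Av M i f ((i + 1) ^ e * ((i + 1) * x)) = Av M i f ((i + 1) ^ (e + 1) * x) := by
        intro e
        congr 1
        ring
      simp only [h2]
      rw [Finset.sum_range_sub (fun e => Av M i f ((i + 1) ^ e * x))]
      refine (abs_sub _ _).trans ?_
      have := Av_abs hM i h ((i + 1) ^ M * x)
      have := Av_abs hM i h ((i + 1) ^ 0 * x)
      linarith

/-- the sequence of averages -/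
noncomputable def sq (f : ℕ → ℝ) (N : ℕ) : ℝ := Av (N + 1) N f 1

/-- the mean -/
noncomputable def mn (f : ℕ → ℝ) : ℝ := limUnder (hyperfilter ℕ : Filter ℕ) (sq f)

lemma tendsto_mn {f : ℕ → ℝ} (hf : Bdd f) :
    Tendsto (sq f) (hyperfilter ℕ : Filter ℕ) (𝓝 (mn f)) := by
  obtain ⟨C, hC⟩ := hf
  have h1 : ∀ N, sq f N ∈ Set.Icc (-C) C := fun N => abs_le.mp (Av_abs (Nat.succ_pos N) N hC 1)
  obtain ⟨l, -, hl⟩ := isCompact_Icc.ultrafilter_le_nhds ((hyperfilter ℕ).map (sq f))
    (by
      rw [Ultrafilter.coe_map, le_principal_iff, Filter.mem_map]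
      exact Filter.univ_mem' h1)
  have h2 : Tendsto (sq f) (hyperfilter ℕ : Filter ℕ) (𝓝 l) := hl
  exact tendsto_nhds_limUnder ⟨l, h2⟩

theorem isMean_mn : IsMean mn := by
  refine ⟨?_, ?_, ?_, ?_⟩
  · intro f g hf hg
    refine tendsto_nhds_unique (tendsto_mn (hf.add hg)) ?_
    have := (tendsto_mn hf).add (tendsto_mn hg)
    refine this.congr fun N => ?_
    exact (Av_add _ _ f g 1).symm
  · intro c
    refine tendsto_nhds_unique (tendsto_mn (Bdd.const c)) ?_
    refine tendsto_const_nhds.congr fun N => ?_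
    exact (Av_const (Nat.succ_pos N) N c 1).symm
  · intro f g hf hg h
    exact le_of_tendsto_of_tendsto' (tendsto_mn hf) (tendsto_mn hg) fun N =>
      Av_mono _ _ h 1 one_pos
  · intro f s hf hs
    obtain ⟨C, hC⟩ := hf
    have hf : Bdd f := ⟨C, hC⟩
    have h1 : Tendsto (fun N => sq (fun x => f (s * x)) N - sq f N) (hyperfilter ℕ : Filter ℕ)
        (𝓝 (mn (fun x => f (s * x)) - mn f)) :=
      (tendsto_mn (hf.comp fun x => s * x)).sub (tendsto_mn hf)
    have h2 : Tendsto (fun N => sq (fun x => f (s * x)) N - sq f N) atTop (𝓝 0) := by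
      have h3 : Tendsto (fun N : ℕ => 2 * C / ((N : ℝ) + 1)) atTop (𝓝 0) :=
        tendsto_const_nhds.div_atTop (tendsto_natCast_atTop_atTop.atTop_add tendsto_const_nhds)
      refine squeeze_zero_norm' ?_ h3
      filter_upwards [eventually_ge_atTop s] with N hN
      have h4 := Av_inv (Nat.succ_pos N) N hC (s - 1) (by omega) 1
      rw [show s - 1 + 1 = s by omega] at h4
      rw [Real.norm_eq_abs, sq, sq, Av_dil]
      exact_mod_cast h4
    have h3 := h2.mono_left (Nat.hyperfilter_le_atTop)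
    have := tendsto_nhds_unique h1 h3
    linarith

/-! ### chains -/

/-- `h n x` is the probability that the `n`-th step after `x` lies in the set -/
noncomputable def hs (m : (ℕ → ℝ) → ℝ) (z : ℕ → ℝ) : ℕ → ℕ → ℝ
  | 0 => z
  | n + 1 => fun x => m (fun y => hs m z n (x + y))

lemma hs_bdd {m : (ℕ → ℝ) → ℝ} (hm : IsMean m) {z : ℕ → ℝ} (hz : Bdd z) (n : ℕ) :
    Bdd (hs m z n) := by
  induction n with
  | zero => exact hz
  | succ n ih => exact hm.bdd_conv ih

lemma hs_nonneg {m : (ℕ → ℝ) → ℝ} (hm : IsMean m) {z : ℕ → ℝ} (hz : Bdd z) (h0 : ∀ x, 0 ≤ z x)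
    (n x : ℕ) : 0 ≤ hs m z n x := by
  induction n generalizing x with
  | zero => exact h0 x
  | succ n ih => exact hm.nonneg ((hs_bdd hm hz n).comp fun y => x + y) fun y _ => ih _

lemma hs_null {m : (ℕ → ℝ) → ℝ} (hm : IsMean m) {z : ℕ → ℝ}
    (hnull : ∀ m', IsMean m' → m' z = 0) (n : ℕ) : ∀ m', IsMean m' → m' (hs m z n) = 0 := by
  induction n with
  | zero => exact hnull
  | succ n ih => exact fun m' hm' => ih _ (hm'.conv hm)

/-- sum of the first probabilities -/
noncomputable def Hs (m : (ℕ → ℝ) → ℝ) (z : ℕ → ℝ) (q x : ℕ) : ℝ :=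
  ∑ n ∈ range (q + 1), hs m z n x

lemma Hs_bdd {m : (ℕ → ℝ) → ℝ} (hm : IsMean m) {z : ℕ → ℝ} (hz : Bdd z) (q : ℕ) :
    Bdd (Hs m z q) := Bdd.sum _ fun n _ => hs_bdd hm hz n

lemma Hs_nonneg {m : (ℕ → ℝ) → ℝ} (hm : IsMean m) {z : ℕ → ℝ} (hz : Bdd z) (h0 : ∀ x, 0 ≤ z x)
    (q x : ℕ) : 0 ≤ Hs m z q x := Finset.sum_nonneg fun n _ => hs_nonneg hm hz h0 n x

lemma Hs_ge {m : (ℕ → ℝ) → ℝ} (hm : IsMean m) {z : ℕ → ℝ} (hz : Bdd z) (h0 : ∀ x, 0 ≤ z x)
    (q x : ℕ) : z x ≤ Hs m z q x :=
  Finset.single_le_sum (f := fun n => hs m z n x) (fun n _ => hs_nonneg hm hz h0 n x)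
    (Finset.mem_range.mpr (Nat.succ_pos q))

lemma Hs_step {m : (ℕ → ℝ) → ℝ} (hm : IsMean m) {z : ℕ → ℝ} (hz : Bdd z) (h0 : ∀ x, 0 ≤ z x)
    (q b : ℕ) : m (fun y => Hs m z q (b + (1 + b) * y)) ≤ Hs m z (q + 1) b := by
  rw [hm.inv (fun y => Hs m z q (b + y)) (1 + b) ((Hs_bdd hm hz q).comp fun y => b + y)
    (by omega)]
  unfold Hs
  rw [hm.sum _ (fun n y => hs m z n (b + y)) fun n _ => (hs_bdd hm hz n).comp fun y => b + y]
  rw [Finset.sum_range_succ' (fun n => hs m z n b) (q + 1)]
  have : 0 ≤ hs m z 0 b := h0 b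
  have e : ∑ n ∈ range (q + 1), hs m z (n + 1) b =
      ∑ n ∈ range (q + 1), m (fun y => hs m z n (b + y)) := rfl
  linarith

/-- a set which is null for all multiplicatively invariant means is avoided by all the numbers
`s j / s i - 1` of some long chain -/
theorem exists_chain {m : (ℕ → ℝ) → ℝ} (hm : IsMean m) {z : ℕ → ℝ} (hz : Bdd z)
    (h0 : ∀ x, 0 ≤ z x) (hnull : ∀ m', IsMean m' → m' z = 0) (t : ℕ) : ∀ q : ℕ,
    ∃ s b : ℕ → ℕ, (∀ i, i ≤ t → 0 < s i) ∧
      (∀ i j, i < j → j ≤ t → ∃ b', 0 < b' ∧ s j = s i * (b' + 1) ∧ z b' < 1) ∧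
      (∀ i, i < t → s t = s i * (b i + 1)) ∧
      ∑ i ∈ range t, Hs m z q (b i) < 1 := by
  induction t with
  | zero =>
    intro q
    exact ⟨fun _ => 1, fun _ => 1, fun _ _ => one_pos, fun i j hij hj => by omega,
      fun i hi => by omega, by simp⟩
  | succ t ih =>
    intro q
    obtain ⟨s, b, h1, h2, h3, h4⟩ := ih (q + 1)
    have hb1 : ∀ i, Bdd (fun y => Hs m z q (b i + (1 + b i) * y)) := fun i =>
      (Hs_bdd hm hz q).comp fun y => b i + (1 + b i) * y
    have hmean : m (fun y => ∑ i ∈ range t, Hs m z q (b i + (1 + b i) * y) + Hs m z q y) < 1 := by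
      rw [hm.add _ _ (Bdd.sum _ fun i _ => hb1 i) (Hs_bdd hm hz q), hm.sum _ _ fun i _ => hb1 i]
      have e1 : m (Hs m z q) = 0 := by
        unfold Hs
        rw [hm.sum _ _ fun n _ => hs_bdd hm hz n]
        exact Finset.sum_eq_zero fun n _ => hs_null hm hnull n m hm
      have e1' : m (fun y => Hs m z q y) = 0 := e1
      rw [e1']
      have e2 := Finset.sum_le_sum fun i (_ : i ∈ range t) => Hs_step hm hz h0 q (b i)
      linarith
    obtain ⟨y, hy, hlt⟩ := hm.exists_lt ((Bdd.sum _ fun i _ => hb1 i).add (Hs_bdd hm hz q)) hmean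
    refine ⟨fun i => if i ≤ t then s i else s t * (1 + y),
      fun i => if i < t then b i + (1 + b i) * y else y, ?_, ?_, ?_, ?_⟩
    · intro i hi
      by_cases h : i ≤ t
      · simp only [h, if_true]; exact h1 i h
      · simp only [h, if_false]
        have := h1 t le_rfl
        positivity
    · intro i j hij hj
      by_cases h : j ≤ t
      · have hi : i ≤ t := by omega
        simp only [h, hi, if_true]
        exact h2 i j hij h
      · have hi : i ≤ t := by omega
        simp only [h, hi, if_true, if_false]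
        by_cases hit : i < t
        · refine ⟨b i + (1 + b i) * y, by positivity, ?_, ?_⟩
          · rw [h3 i hit]; ring
          · have e1 : Hs m z q (b i + (1 + b i) * y) ≤
                ∑ i ∈ range t, Hs m z q (b i + (1 + b i) * y) :=
              Finset.single_le_sum (f := fun i => Hs m z q (b i + (1 + b i) * y))
                (fun i _ => Hs_nonneg hm hz h0 q _) (Finset.mem_range.mpr hit)
            have e2 := Hs_ge hm hz h0 q (b i + (1 + b i) * y)
            have e3 := Hs_nonneg hm hz h0 q y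
            linarith
        · have : i = t := by omega
          subst this
          refine ⟨y, hy, by ring, ?_⟩
          have e1 : 0 ≤ ∑ i ∈ range i, Hs m z q (b i + (1 + b i) * y) :=
            Finset.sum_nonneg fun i _ => Hs_nonneg hm hz h0 q _
          have e2 := Hs_ge hm hz h0 q y
          linarith
    · intro i hi
      have h : ¬ (t + 1 ≤ t) := by omega
      have hi' : i ≤ t := by omega
      simp only [h, hi', if_true, if_false]
      by_cases hit : i < t
      · simp only [hit, if_true]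
        rw [h3 i hit]; ring
      · have : i = t := by omega
        subst this
        simp only [lt_irrefl, if_false]
        ring
    · rw [Finset.sum_range_succ]
      simp only [lt_irrefl, if_false]
      refine lt_of_le_of_lt (le_of_eq ?_) hlt
      congr 1
      refine Finset.sum_congr rfl fun i hi => ?_
      simp only [Finset.mem_range.mp hi, if_true]

/-! ### Ramsey's theorem for pairs -/

/-- end-homogeneous sets -/
lemma exists_endhom (r n : ℕ) : ∃ R : ℕ, ∀ χ : ℕ → ℕ → Fin r,
    ∀ S : Finset ℕ, R ≤ S.card → ∃ J ⊆ S, n ≤ J.card ∧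
      ∀ i ∈ J, ∃ k : Fin r, ∀ j ∈ J, i < j → χ i j = k := by
  induction n with
  | zero => exact ⟨0, fun χ S _ => ⟨∅, by simp, by simp, by simp⟩⟩
  | succ n ih =>
    obtain ⟨R, hR⟩ := ih
    refine ⟨r * R + 1, fun χ S hS => ?_⟩
    have hne : S.Nonempty := by
      rw [← Finset.card_pos]; omega
    set i := S.min' hne with hi
    have hiS : i ∈ S := S.min'_mem hne
    have hcard : r * R ≤ (S.erase i).card := by
      rw [Finset.card_erase_of_mem hiS]; omega
    obtain ⟨k, -, hk⟩ : ∃ k ∈ (Finset.univ : Finset (Fin r)),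
        R ≤ ((S.erase i).filter (fun j => χ i j = k)).card := by
      refine Finset.exists_le_card_fiber_of_mul_le_card_of_maps_to (fun j _ => Finset.mem_univ _)
        ⟨χ 0 0, Finset.mem_univ _⟩ ?_
      simpa using hcard
    obtain ⟨J, hJ, hJc, hJh⟩ := hR χ _ hk
    have hiJ : i ∉ J := by
      intro h
      have := hJ h
      simp at this
    have hmin : ∀ j ∈ J, i < j := by
      intro j hj
      have h1 := hJ hj
      rw [Finset.mem_filter, Finset.mem_erase] at h1
      exact lt_of_le_of_ne (S.min'_le j h1.1.2) (Ne.symm h1.1.1)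
    refine ⟨insert i J, ?_, ?_, ?_⟩
    · intro j hj
      rcases Finset.mem_insert.mp hj with h | h
      · rw [h]; exact hiS
      · have h1 := hJ h
        rw [Finset.mem_filter, Finset.mem_erase] at h1
        exact h1.1.2
    · rw [Finset.card_insert_of_notMem hiJ]; omega
    · intro a ha
      rcases Finset.mem_insert.mp ha with h | h
      · subst h
        refine ⟨k, fun j hj hij => ?_⟩
        rcases Finset.mem_insert.mp hj with h' | h'
        · omega
        · have h1 := hJ h'
          rw [Finset.mem_filter] at h1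
          exact h1.2
      · obtain ⟨k', hk'⟩ := hJh a h
        refine ⟨k', fun j hj hij => ?_⟩
        rcases Finset.mem_insert.mp hj with h' | h'
        · have := hmin a h
          omega
        · exact hk' j h' hij

/-- finite Ramsey theorem for pairs -/
theorem ramsey (r N : ℕ) : ∃ R : ℕ, ∀ χ : ℕ → ℕ → Fin r,
    ∃ (k : Fin r) (J : Finset ℕ), J ⊆ range R ∧ N ≤ J.card ∧
      ∀ i ∈ J, ∀ j ∈ J, i < j → χ i j = k := by
  obtain ⟨R, hR⟩ := exists_endhom r (r * N)
  refine ⟨R, fun χ => ?_⟩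
  obtain ⟨J, hJ, hJc, hJh⟩ := hR χ (range R) (by simp)
  have : Nonempty (Fin r) := ⟨χ 0 0⟩
  choose! g hg using hJh
  obtain ⟨k, -, hk⟩ : ∃ k ∈ (Finset.univ : Finset (Fin r)),
      N ≤ (J.filter (fun j => g j = k)).card := by
    refine Finset.exists_le_card_fiber_of_mul_le_card_of_maps_to (fun j _ => Finset.mem_univ _)
      ⟨χ 0 0, Finset.mem_univ _⟩ ?_
    simpa using hJc
  refine ⟨k, J.filter (fun j => g j = k), (Finset.filter_subset _ _).trans hJ, hk, ?_⟩
  intro i hi j hj hij
  rw [Finset.mem_filter] at hi hj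
  rw [hg i hi.1 j hj.1 hij, hi.2]

end Pool.Agent.H347.MeanPR
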